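import Pool.Agent.H891FSS.FD_RES
import Pool.Agent.H891FSS.FE_RES
import Pool.Agent.H891FSS.FU_FIX

set_option autoImplicit false

namespace Pool.Agent.Results.MP_2e6e95_co.UntangleSubcubicBipartite

open Pool.Agent.H891WLC

/-- `p` is a crossing-free straight-line drawing of `G`: distinct vertices are distinct points, every
edge is the open segment between its ends, no edge contains (the image of) a vertex, and distinct
edges are disjoint. -/
def Drawing {V : Type} (G : SimpleGraph V) (p : V → ℝ × ℝ) : Prop :=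
  Function.Injective p ∧
    (∀ u v w : V, G.Adj u v → p w ∉ openSegment ℝ (p u) (p v)) ∧
    (∀ u v x y : V, G.Adj u v → G.Adj x y → s(u, v) ≠ s(x, y) →
      Disjoint (openSegment ℝ (p u) (p v)) (openSegment ℝ (p x) (p y)))

/-- `G` is planar (it has a straight-line crossing-free drawing) -/
def Planar {V : Type} (G : SimpleGraph V) : Prop := ∃ p : V → ℝ × ℝ, Drawing G p

/-- maximum degree at most `D` -/
def MaxDegree {V : Type} (G : SimpleGraph V) (D : ℕ) : Prop := ∀ v, Set.ncard {x | G.Adj v x} ≤ D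

theorem drawing_of_plane {V : Type} {G : SimpleGraph V} {p : V → ℝ × ℝ} (h : Plane G p) :
    Drawing G p := by
  obtain ⟨hinj, hv, he⟩ := h
  have hend : ∀ u v : V, u ≠ v → p u ∉ openSegment ℝ (p u) (p v) := by
    intro u v huv hmem
    exact huv (hinj (left_mem_openSegment_iff.mp hmem))
  have hend' : ∀ u v : V, u ≠ v → p v ∉ openSegment ℝ (p u) (p v) := by
    intro u v huv hmem
    rw [openSegment_symm] at hmem
    exact hend v u huv.symm hmem
  refine ⟨hinj, ?_, ?_⟩
  · intro u v w huv hmem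
    by_cases h1 : w = u
    · subst h1; exact hend _ _ huv.ne hmem
    · by_cases h2 : w = v
      · subst h2; exact hend' _ _ huv.ne hmem
      · exact hv u v w huv h1 h2 (openSegment_subset_segment ℝ _ _ hmem)
  · intro u v x y huv hxy hne
    rw [Set.disjoint_left]
    intro z hz1 hz2
    obtain ⟨w, hw1, hw2, hzw⟩ := he u v x y huv hxy hne z
      (openSegment_subset_segment ℝ _ _ hz1) (openSegment_subset_segment ℝ _ _ hz2)
    rcases hw1 with rfl | rfl
    · rw [hzw] at hz1; exact hend _ _ huv.ne hz1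
    · rw [hzw] at hz1; exact hend' _ _ huv.ne hz1

theorem plane_of_drawing {V : Type} {G : SimpleGraph V} {p : V → ℝ × ℝ} (h : Drawing G p) :
    Plane G p := by
  obtain ⟨hinj, hv, he⟩ := h
  have hcase : ∀ u v : V, ∀ z ∈ segment ℝ (p u) (p v),
      z = p u ∨ z = p v ∨ z ∈ openSegment ℝ (p u) (p v) := by
    intro u v z hz
    rw [← insert_endpoints_openSegment] at hz
    simpa using hz
  refine ⟨hinj, ?_, ?_⟩
  · intro u v w huv h1 h2 hmem
    rcases hcase u v _ hmem with h | h | h
    · exact h1 (hinj h)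
    · exact h2 (hinj h)
    · exact hv u v w huv h
  · intro u v x y huv hxy hne z hz1 hz2
    rcases hcase u v z hz1 with h1 | h1 | h1
    · rcases hcase x y z hz2 with h2 | h2 | h2
      · exact ⟨u, Or.inl rfl, Or.inl (hinj (h1.symm.trans h2)), h1⟩
      · exact ⟨u, Or.inl rfl, Or.inr (hinj (h1.symm.trans h2)), h1⟩
      · exact absurd (h1 ▸ h2) (hv x y u hxy)
    · rcases hcase x y z hz2 with h2 | h2 | h2
      · exact ⟨v, Or.inr rfl, Or.inl (hinj (h1.symm.trans h2)), h1⟩
      · exact ⟨v, Or.inr rfl, Or.inr (hinj (h1.symm.trans h2)), h1⟩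
      · exact absurd (h1 ▸ h2) (hv x y v hxy)
    · rcases hcase x y z hz2 with h2 | h2 | h2
      · exact absurd (h2 ▸ h1) (hv u v x huv)
      · exact absurd (h2 ▸ h1) (hv u v y huv)
      · exact absurd h2 (Set.disjoint_left.mp (he u v x y huv hxy hne) h1)

/-- `fix(G) ≥ t`: for every straight-line drawing `Γ` of `G` (any placement of the vertices at
distinct points) there are a set `F` of at least `t` vertices and a crossing-free straight-line
drawing of `G` that agrees with `Γ` on `F`. -/
def FixAtLeast {V : Type} (G : SimpleGraph V) (t : ℝ) : Prop :=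
  ∀ Γ : V → ℝ × ℝ, Function.Injective Γ →
    ∃ (F : Finset V) (Γ' : V → ℝ × ℝ), t ≤ F.card ∧ Drawing G Γ' ∧ ∀ v ∈ F, Γ' v = Γ v

theorem fix_of {V : Type} [Fintype V] (G : SimpleGraph V) (K : ℝ) (hK : 1 ≤ K) (S : Finset V)
    (hcard : (Fintype.card V : ℝ) ≤ K * S.card)
    (hS : ∃ v : Fin S.card → V, Function.Injective v ∧ (∀ a, a ∈ S ↔ ∃ i, v i = a) ∧
        ∀ x y : Fin S.card → ℝ, StrictMono x →
          ∃ q : V → ℝ × ℝ, Plane G q ∧ ∀ i, q (v i) = (x i, y i)) :
    FixAtLeast G (1 / K * Real.sqrt (Fintype.card V)) := by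
  classical
  intro Γ hΓ
  obtain ⟨F, q, hF, hq, hfix⟩ := FU_FIX G S hS Γ hΓ
  refine ⟨F, q, ?_, drawing_of_plane hq, hfix⟩
  have hF' : (S.card : ℝ) ≤ (F.card : ℝ) * F.card := by exact_mod_cast hF
  have hK0 : 0 < K := lt_of_lt_of_le one_pos hK
  have h1 : (Fintype.card V : ℝ) ≤ (K * F.card) ^ 2 := by
    have hf : (0 : ℝ) ≤ (F.card : ℝ) * F.card := by positivity
    have h2 : (Fintype.card V : ℝ) ≤ K * ((F.card : ℝ) * F.card) :=
      le_trans hcard (mul_le_mul_of_nonneg_left hF' hK0.le)
    have h3 : K * ((F.card : ℝ) * F.card) ≤ K * (K * ((F.card : ℝ) * F.card)) := by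
      apply mul_le_mul_of_nonneg_left _ hK0.le
      nlinarith
    nlinarith
  have h4 : Real.sqrt (Fintype.card V) ≤ K * F.card := by
    apply Real.sqrt_le_iff.mpr
    exact ⟨by positivity, h1⟩
  rw [one_div, inv_mul_le_iff₀ hK0]
  exact h4

/-- **`fix(G) ≥ c √n` for all planar graphs of maximum degree at most three, and, for every `D`, for
all bipartite planar graphs of maximum degree at most `D`.** -/
theorem result :
    (∃ c : ℝ, 0 < c ∧ ∀ (V : Type) [Fintype V] (G : SimpleGraph V),
      Planar G → MaxDegree G 3 → FixAtLeast G (c * Real.sqrt (Fintype.card V))) ∧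
    (∀ D : ℕ, ∃ c : ℝ, 0 < c ∧ ∀ (V : Type) [Fintype V] (G : SimpleGraph V),
      Planar G → G.Colorable 2 → MaxDegree G D →
        FixAtLeast G (c * Real.sqrt (Fintype.card V))) := by
  classical
  constructor
  · refine ⟨1 / 40, by norm_num, ?_⟩
    intro V _ G hP hG
    obtain ⟨p, hp⟩ := hP
    obtain ⟨S, -, hcard, hord, -⟩ := FD_RES G ⟨p, plane_of_drawing hp⟩ hG Finset.univ
    exact fix_of G 40 (by norm_num) S (by simpa using hcard) hord
  · intro D
    have hpos : (0 : ℝ) < 1 + D + D * D := by positivity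
    refine ⟨1 / (1 + D + D * D), by positivity, ?_⟩
    intro V _ G hP hc hG
    obtain ⟨p, hp⟩ := hP
    obtain ⟨C⟩ := hc
    have hb : ∀ x y, G.Adj x y → (x ∈ {v | C v = 0} ↔ y ∉ {v | C v = 0}) := by
      intro x y hxy
      have hne := C.valid hxy
      simp only [Set.mem_ofPred_eq]
      generalize C x = a at *
      generalize C y = b at *
      revert a b
      decide
    obtain ⟨S, -, hcard, hord, -⟩ :=
      FE_RES G ⟨p, plane_of_drawing hp⟩ {v | C v = 0} hb D hG Finset.univ
    refine fix_of G (1 + D + D * D) ?_ S (by simpa using hcard) hord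
    have : (0 : ℝ) ≤ D + D * D := by positivity
    linarith

end Pool.Agent.Results.MP_2e6e95_co.UntangleSubcubicBipartite
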